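import Pool.Agent.Run7.h676.Main

/-!
# Local finiteness of 2-groups whose 2-generated subgroups have class at most nine

A 2-group in which every subgroup generated by two elements is nilpotent of class at most `9` is
locally finite.

The proof: let `R` be the locally finite radical, and pass to `G / R`, which has no nontrivial
locally finite normal subgroup.  If `z ^ 2 = 1` and `[z, z ^ y]` commutes with `y` for all `y`, then
the normal closure of `z` is generated by abelian normal subgroups of itself, so `z = 1`
(`Star.lean`).  A collection computation in the free groups of class 8 and exponent `2 ^ k`, carried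
out by certificates which are checked in `Cert.lean`, shows that `x ^ 2 ^ (k - 1)` commutes with its
conjugates in groups of class `8` and exponent `2 ^ k`, `k ≥ 3`, (`Eight.lean`); so in class `9` the
element `z = x ^ 2 ^ (k - 1)` has the above property.  Descending, `G / R` has exponent `4` and so it
is locally finite by Sanov's theorem, proved in `Pool.Agent.H15R2.Burn`.
-/

set_option autoImplicit false

/-- Let `G` be a group in which every element has 2-power order, and in which every two elements
generate a nilpotent subgroup of class at most `9`.  Then every finitely generated subgroup of `G`
is finite. -/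
theorem Pool.Agent.Results.MP_3b0e0c_al.ClassNine.result.{u} :
    ∀ (G : Type u) [Group G],
      (∀ g : G, ∃ k : ℕ, orderOf g = 2 ^ k) →
      (∀ a b : G, (Subgroup.closure ({a, b} : Set G)).lowerCentralSeries 9 = ⊥) →
      ∀ s : Finset G, ((Subgroup.closure (s : Set G) : Subgroup G) : Set G).Finite := by
  intro G _ h2 h9 s
  refine Run7.h676.main h9 (fun g => ?_) s (fun x _ => Subgroup.mem_top x)
  obtain ⟨k, hk⟩ := h2 g
  exact ⟨k, by rw [← hk]; exact pow_orderOf_eq_one g⟩
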