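import Pool.Agent.Run7.h676.StarT
import Pool.Agent.H15R2.Burn

/-!
# Local finiteness of periodic groups with the law `[[x ^ 4, (x ^ 4) ^ y], y] = 1`

The law makes the normal closure of every fourth power locally finite: if `[a, a ^ y]` commutes with
`y` for all `y`, then (replacing `y` by `h y`, with `h` in the centralizer of `a`) it commutes with
the centralizer of `a`, so the conjugates of `a` normalise the centralizer of `a`, and `a` commutes
with its conjugates under the normal closure of `a`.  The group modulo its locally finite radical has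
exponent `4`, so it is locally finite by Sanov's theorem, proved in `Pool.Agent.H15R2.Burn`.
-/

set_option autoImplicit false

open scoped commutatorElement

/-- Let `G` be a periodic group such that for all `x`, `y` the commutator of `x ^ 4` and its
conjugate `y⁻¹ * x ^ 4 * y` commutes with `y`.  Then `G` is locally finite. -/
theorem Pool.Agent.Results.MP_3b0e0c_al.FourthPowerLaw.result.{u} :
    ∀ (G : Type u) [Group G],
      (∀ g : G, IsOfFinOrder g) →
      (∀ x y : G, Commute ⁅x ^ 4, y⁻¹ * x ^ 4 * y⁆ y) →
      ∀ s : Finset G, ((Subgroup.closure (s : Set G) : Subgroup G) : Set G).Finite := by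
  intro G _ ht h s
  refine Run7.h676.law_LF 4 (fun Q _ hQ s _ => H15.Burn.fin4 hQ s) (fun g => ?_) (fun x y => ?_) s
    (fun x _ => Subgroup.mem_top x)
  · exact (isOfFinOrder_iff_pow_eq_one.1 (ht g))
  · have h1 := h x⁻¹ y
    have e : ⁅x⁻¹ ^ 4, y⁻¹ * x⁻¹ ^ 4 * y⁆ = Run7.h676.cm (x ^ 4) (y⁻¹ * x ^ 4 * y) := by
      rw [commutatorElement_def, Run7.h676.cm, inv_pow]
      group
    rwa [e] at h1
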